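import Pool.Agent.TH494.FL.Pr

/-! Brackets of leading terms, determinants. -/

set_option autoImplicit false

universe u v

namespace Pool.Agent.TH494.FLV

open Module Pool.Agent.TH28.FL

section

variable {K : Type u} {L : Type v} [Field K] [CharZero K] [LieRing L] [LieAlgebra K L]
  [FiniteDimensional K L]

omit [CharZero K] [FiniteDimensional K L] in
theorem dg_lie {w x y : L} {i j : ℤ} (hx : x ∈ dg K w i) (hy : y ∈ dg K w j) :
    ⁅x, y⁆ ∈ dg K w (i + j) := by
  rw [mem_dg] at hx hy ⊢
  rw [leibniz_lie, hx, hy, smul_lie, lie_smul, ← add_smul, Int.cast_add]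

/-- the data of the projections -/
structure Prj (w : L) (pr : ℤ → L →ₗ[K] L) (S : Finset ℤ) : Prop where
  mem : ∀ j x, pr j x ∈ dg K w j
  same : ∀ j x, x ∈ dg K w j → pr j x = x
  ne : ∀ i j x, x ∈ dg K w i → i ≠ j → pr j x = 0
  sum : ∀ x, ∑ j ∈ S, pr j x = x
  out : ∀ j, j ∉ S → ∀ x, pr j x = 0

variable {w : L} {pr : ℤ → L →ₗ[K] L} {S : Finset ℤ}

omit [CharZero K] [FiniteDimensional K L] in
theorem pr_pr (h : Prj w pr S) (i j : ℤ) (x : L) :
    pr j (pr i x) = if i = j then pr i x else 0 := by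
  split_ifs with hij
  · subst hij
    exact h.same _ _ (h.mem _ _)
  · exact h.ne i j _ (h.mem _ _) hij

omit [CharZero K] [FiniteDimensional K L] in
theorem pr_lie (h : Prj w pr S) (s : ℤ) (x y : L) :
    pr s ⁅x, y⁆ = ∑ i ∈ S, ∑ j ∈ S, if i + j = s then ⁅pr i x, pr j y⁆ else 0 := by
  conv_lhs => rw [← h.sum x, ← h.sum y]
  rw [sum_lie, map_sum]
  refine Finset.sum_congr rfl fun i _ => ?_
  rw [lie_sum, map_sum]
  refine Finset.sum_congr rfl fun j _ => ?_
  have hm := dg_lie (h.mem i x) (h.mem j y)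
  split_ifs with hij
  · subst hij
    exact h.same _ _ hm
  · exact h.ne _ _ _ hm hij

omit [CharZero K] [FiniteDimensional K L] in
theorem pr_lie_low (h : Prj w pr S) {a b : ℤ} {x y : L} (hx : ∀ j < a, pr j x = 0)
    (hy : ∀ j < b, pr j y = 0) (s : ℤ) (hs : s < a + b) : pr s ⁅x, y⁆ = 0 := by
  rw [pr_lie h]
  refine Finset.sum_eq_zero fun i _ => Finset.sum_eq_zero fun j _ => ?_
  split_ifs with hij
  · by_cases hi : i < a
    · rw [hx i hi, zero_lie]
    · have hj : j < b := by omega
      rw [hy j hj, lie_zero]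
  · rfl

omit [CharZero K] [FiniteDimensional K L] in
theorem pr_lie_lead (h : Prj w pr S) {a b : ℤ} {x y : L} (hx : ∀ j < a, pr j x = 0)
    (hy : ∀ j < b, pr j y = 0) : pr (a + b) ⁅x, y⁆ = ⁅pr a x, pr b y⁆ := by
  rw [pr_lie h, Finset.sum_eq_single a, Finset.sum_eq_single b]
  · rw [if_pos rfl]
  · intro j _ hj
    rw [if_neg (by omega)]
  · intro hb
    rw [h.out b hb, lie_zero, ite_self]
  · intro i _ hi
    refine Finset.sum_eq_zero fun j _ => ?_
    split_ifs with hij
    · by_cases hi : i < a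
      · rw [hx i hi, zero_lie]
      · have hj : j < b := by omega
        rw [hy j hj, lie_zero]
    · rfl
  · intro ha
    refine Finset.sum_eq_zero fun j _ => ?_
    rw [h.out a ha, zero_lie, ite_self]

omit [CharZero K] [FiniteDimensional K L] in
theorem eq_zero_of_pr (h : Prj w pr S) {x : L} (hx : ∀ j ∈ S, pr j x = 0) : x = 0 := by
  rw [← h.sum x]
  exact Finset.sum_eq_zero hx

/-- An eigencomponent of an element of a stable subspace lies in the subspace. -/
theorem eig_mem {X : Type*} [AddCommGroup X] [Module K X] (T : X → X)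
    (hadd : ∀ x y, T (x + y) = T x + T y) (V : Submodule K X)
    (hV : ∀ x ∈ V, T x ∈ V) (A : Finset ℤ) (F : ℤ → X) (hF : ∀ s, T (F s) = (-(s : K)) • F s)
    (hs : ∀ (c : K) (x : X), T (c • x) = c • T x)
    (hsum : ∑ s ∈ A, F s ∈ V) : ∀ s ∈ A, F s ∈ V := by
  classical
  let T' : X →ₗ[K] X := { toFun := T, map_add' := hadd, map_smul' := hs }
  induction A using Finset.induction_on generalizing F with
  | empty => intro s hs; simp at hs
  | insert a A ha ih =>
    rw [Finset.sum_insert ha] at hsum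
    have h1 : ∑ s ∈ A, ((a : K) - s) • F s ∈ V := by
      have h2 : T' (F a + ∑ s ∈ A, F s) + (a : K) • (F a + ∑ s ∈ A, F s) ∈ V :=
        V.add_mem (hV _ hsum) (V.smul_mem _ hsum)
      have h3 : T' (F a + ∑ s ∈ A, F s) + (a : K) • (F a + ∑ s ∈ A, F s)
          = ∑ s ∈ A, ((a : K) - s) • F s := by
        have h4 : ∀ s, T' (F s) = (-(s : K)) • F s := hF
        rw [map_add, map_sum, h4, smul_add, Finset.smul_sum, add_add_add_comm, ← add_smul,
          neg_add_cancel, zero_smul, zero_add, ← Finset.sum_add_distrib]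
        refine Finset.sum_congr rfl fun s _ => ?_
        rw [h4, ← add_smul]
        congr 1
        ring
      rw [h3] at h2
      exact h2
    have h5 : ∀ s ∈ A, ((a : K) - s) • F s ∈ V := by
      refine ih (fun s => ((a : K) - s) • F s) ?_ h1
      intro s
      rw [hs, hF, smul_comm]
    have h6 : ∀ s ∈ A, F s ∈ V := by
      intro s hs
      have hne : (a : K) - s ≠ 0 := by
        rw [sub_ne_zero]
        intro h
        have : a = s := by exact_mod_cast h
        exact ha (this ▸ hs)
      have := V.smul_mem ((a : K) - s)⁻¹ (h5 s hs)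
      rwa [smul_smul, inv_mul_cancel₀ hne, one_smul] at this
    intro s hs
    rcases Finset.mem_insert.1 hs with rfl | hs
    · have := V.sub_mem hsum (V.sum_mem h6)
      simpa using this
    · exact h6 s hs

omit [CharZero K] in
theorem det_diag {m : ℕ} (A : Matrix (Fin m) (Fin m) K) (c : Fin m → K) :
    ∑ i, (A.updateRow i (fun j => c j * A i j)).det = (∑ j, c j) * A.det := by
  classical
  simp only [Matrix.det_apply]
  rw [Finset.sum_comm, Finset.mul_sum]
  refine Finset.sum_congr rfl fun σ _ => ?_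
  rw [← Finset.smul_sum, mul_smul_comm]
  congr 1
  have h : ∀ i0 : Fin m, ∏ i, (A.updateRow i0 (fun j => c j * A i0 j)) (σ i) i
      = c (σ.symm i0) * ∏ i, A (σ i) i := by
    intro i0
    rw [← Finset.mul_prod_erase Finset.univ _ (Finset.mem_univ (σ.symm i0)),
      ← Finset.mul_prod_erase Finset.univ (fun i => A (σ i) i) (Finset.mem_univ (σ.symm i0)),
      ← mul_assoc]
    congr 1
    · simp
    · refine Finset.prod_congr rfl fun i hi => ?_
      rw [Matrix.updateRow_ne]
      intro h
      exact Finset.ne_of_mem_erase hi (by rw [← h]; simp)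
  simp only [h]
  rw [← Finset.sum_mul]
  congr 1
  exact Equiv.sum_comp σ.symm c

end

end Pool.Agent.TH494.FLV
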