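import Pool.Agent.TH28.FL.Dat

/-! Projections onto the eigenspaces of `ad w`, and leading terms. -/

set_option autoImplicit false

universe u v

namespace Pool.Agent.TH494.FLV

open Module Pool.Agent.TH28.FL

section

variable (K : Type u) {L : Type v} [Field K] [CharZero K] [LieRing L] [LieAlgebra K L]
  [FiniteDimensional K L]

omit [FiniteDimensional K L] in
theorem dg_indep (w : L) : iSupIndep (fun j : ℤ => dg K w j) := by
  have h := (Module.End.eigenspaces_iSupIndep (LieAlgebra.ad K L w))
  have h2 : Function.Injective (fun j : ℤ => (j : K)) := Int.cast_injective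
  have h3 := h.comp h2
  have : (fun j : ℤ => dg K w j) =
      (Module.End.eigenspace (LieAlgebra.ad K L w)) ∘ (fun j : ℤ => (j : K)) := by
    funext j
    ext x
    rw [mem_dg, Function.comp_apply, Module.End.mem_eigenspace_iff]
    rfl
  rw [this]
  exact h3

theorem exists_pr (w : L) (htop : ⨆ j : ℤ, dg K w j = ⊤) :
    ∃ (pr : ℤ → L →ₗ[K] L) (S : Finset ℤ), (∀ j x, pr j x ∈ dg K w j) ∧
      (∀ j x, x ∈ dg K w j → pr j x = x) ∧
      (∀ i j x, x ∈ dg K w i → i ≠ j → pr j x = 0) ∧
      (∀ x, ∑ j ∈ S, pr j x = x) ∧ (∀ j, j ∉ S → ∀ x, pr j x = 0) := by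
  classical
  have hind := dg_indep K w
  have hint : DirectSum.IsInternal (fun j : ℤ => dg K w j) :=
    DirectSum.isInternal_submodule_of_iSupIndep_of_iSup_eq_top hind htop
  let E := LinearEquiv.ofBijective (DirectSum.coeLinearMap (fun j : ℤ => dg K w j)) hint
  let pr : ℤ → L →ₗ[K] L := fun j =>
    (dg K w j).subtype ∘ₗ DirectSum.component K ℤ (fun j => dg K w j) j ∘ₗ E.symm.toLinearMap
  have hE : ∀ (j : ℤ) (x : L) (hx : x ∈ dg K w j),
      E.symm x = DirectSum.lof K ℤ (fun j => dg K w j) j ⟨x, hx⟩ := by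
    intro j x hx
    rw [LinearEquiv.symm_apply_eq]
    change x = (DirectSum.coeLinearMap (fun j : ℤ => dg K w j)) _
    rw [DirectSum.coeLinearMap_lof]
  have hfin : {j : ℤ | dg K w j ≠ ⊥}.Finite := WellFoundedGT.finite_ne_bot_of_iSupIndep hind
  have h1 : ∀ j x, pr j x ∈ dg K w j := fun j x => Subtype.property _
  have h2 : ∀ j x, x ∈ dg K w j → pr j x = x := by
    intro j x hx
    change ((DirectSum.component K ℤ (fun j => dg K w j) j (E.symm x) : dg K w j) : L) = x
    rw [hE j x hx, DirectSum.component.lof_self]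
  have h3 : ∀ i j x, x ∈ dg K w i → i ≠ j → pr j x = 0 := by
    intro i j x hx hij
    change ((DirectSum.component K ℤ (fun j => dg K w j) j (E.symm x) : dg K w j) : L) = 0
    rw [hE i x hx, DirectSum.component.of, dif_neg hij]
    rfl
  have h5 : ∀ j, j ∉ hfin.toFinset → ∀ x, pr j x = 0 := by
    intro j hj x
    have : dg K w j = ⊥ := by
      by_contra h
      exact hj (by simpa using h)
    have h := h1 j x
    rw [this] at h
    simpa using h
  refine ⟨pr, hfin.toFinset, h1, h2, h3, ?_, h5⟩
  intro x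
  have hx : x ∈ ⨆ j : ℤ, dg K w j := by rw [htop]; trivial
  induction hx using Submodule.iSup_induction' with
  | mem i x hx =>
    by_cases hi : i ∈ hfin.toFinset
    · rw [Finset.sum_eq_single i, h2 i x hx]
      · intro j _ hj
        exact h3 i j x hx (Ne.symm hj)
      · intro h
        exact absurd hi h
    · have h0 : x = 0 := by rw [← h2 i x hx]; exact h5 i hi x
      subst h0
      simp
  | zero => simp
  | add x y hx hy ihx ihy =>
    simp only [map_add, Finset.sum_add_distrib, ihx, ihy]

end

end Pool.Agent.TH494.FLV
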