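import Pool.Agent.TH494.FL.Brk

/-! The limit of a subalgebra of nilpotent elements. -/

set_option autoImplicit false

universe u v

namespace Pool.Agent.TH494.FLV

open Module Pool.Agent.TH28.FL

section

variable {K : Type u} {L : Type v} [Field K] [CharZero K] [LieRing L] [LieAlgebra K L]
  [FiniteDimensional K L]

variable {w : L} {pr : ℤ → L →ₗ[K] L} {S : Finset ℤ}

omit [CharZero K] [FiniteDimensional K L] in
theorem fdet_update {m : ℕ} (n : Fin m → L) (i0 : Fin m) (c : Fin m → K) :
    fdet K (Function.update n i0 (∑ i, c i • n i)) = c i0 • fdet K n := by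
  classical
  ext x
  rw [fdet_apply, MultilinearMap.smul_apply, fdet_apply, ← Matrix.det_updateCol_sum]
  congr 1
  ext i j
  by_cases h : j = i0
  · subst h
    simp [Matrix.of_apply]
  · simp [Matrix.of_apply, Matrix.updateCol_ne h, Function.update_of_ne h]

omit [CharZero K] [FiniteDimensional K L] in
theorem kill_w (x y : L) : killingForm K L ⁅w, x⁆ y = - killingForm K L x ⁅w, y⁆ := by
  rw [← lie_skew w x, map_neg, LinearMap.neg_apply]
  congr 1
  exact LieModule.traceForm_apply_lie_apply K L L x w y

omit [CharZero K] [FiniteDimensional K L] in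
theorem act_fdet {m : ℕ} (p : Fin m → L) (e : Fin m → ℤ) (hp : ∀ i, p i ∈ dg K w (e i)) :
    act K w (fdet K p) = (-((∑ i, e i : ℤ) : K)) • fdet K p := by
  classical
  ext x
  rw [act_apply, MultilinearMap.smul_apply]
  simp only [fdet_apply]
  have h := det_diag (Matrix.of fun i j => killingForm K L (x i) (p j)) (fun j => -(e j : K))
  have h2 : (∑ j, -(e j : K)) = -((∑ i, e i : ℤ) : K) := by
    push_cast
    rw [Finset.sum_neg_distrib]
  rw [smul_eq_mul, ← h2, ← h]
  refine Finset.sum_congr rfl fun i _ => ?_
  congr 1
  ext a b
  by_cases hai : a = i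
  · subst hai
    have hb := hp b
    rw [mem_dg] at hb
    simp only [Matrix.of_apply, Function.update_self, Matrix.updateRow_self]
    rw [kill_w, hb, map_smul, smul_eq_mul, neg_mul]
  · simp only [Matrix.of_apply, Function.update_of_ne hai, Matrix.updateRow_ne hai]

omit [CharZero K] [FiniteDimensional K L] in
theorem fdet_expand (h : Prj w pr S) {m : ℕ} (n : Fin m → L) :
    fdet K n = ∑ r ∈ Fintype.piFinset (fun _ : Fin m => S), fdet K (fun i => pr (r i) (n i)) := by
  classical
  ext x
  rw [MultilinearMap.sum_apply]
  let D : MultilinearMap K (fun _ : Fin m => L) K :=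
    (Matrix.detRowAlternating (R := K) (n := Fin m)).toMultilinearMap.compLinearMap
      (fun _ => LinearMap.pi fun i => killingForm K L (x i))
  have hD : ∀ p : Fin m → L, fdet K p x = D p := by
    intro p
    rw [fdet_apply, ← Matrix.det_transpose]
    rfl
  simp only [hD]
  have h1 : D n = D (fun i => ∑ j ∈ S, pr j (n i)) := by
    congr 1
    funext i
    rw [h.sum]
  rw [h1, MultilinearMap.map_sum_finset]

omit [CharZero K] [FiniteDimensional K L] in
theorem fdet_zero {m : ℕ} (n : Fin m → L) (i : Fin m) (hi : n i = 0) : fdet K n = 0 := by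
  ext x
  rw [fdet_apply, MultilinearMap.zero_apply]
  apply Matrix.det_eq_zero_of_column_eq_zero i
  intro j
  simp [Matrix.of_apply, hi]

omit [CharZero K] [FiniteDimensional K L] in
theorem act_add {m : ℕ} (a : L) (F G : Frm K L m) : act K a (F + G) = act K a F + act K a G := by
  ext x
  simp only [act_apply, MultilinearMap.add_apply, Finset.sum_add_distrib]

omit [CharZero K] [FiniteDimensional K L] in
theorem act_smul {m : ℕ} (a : L) (c : K) (F : Frm K L m) :
    act K a (c • F) = c • act K a F := by
  ext x
  simp only [act_apply, MultilinearMap.smul_apply, Finset.smul_sum]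

/-- The form of the leading terms lies in the stable space. -/
theorem fdet_lead_mem (h : Prj w pr S) {m : ℕ} (n : Fin m → L) (d : Fin m → ℤ)
    (hd : ∀ i, ∀ j < d i, pr j (n i) = 0) (V : Submodule K (Frm K L m))
    (hV : ∀ F ∈ V, act K w F ∈ V) (hn : fdet K n ∈ V) :
    fdet K (fun i => pr (d i) (n i)) ∈ V := by
  classical
  let R := Fintype.piFinset (fun _ : Fin m => S)
  let g : (Fin m → ℤ) → Frm K L m := fun r => fdet K (fun i => pr (r i) (n i))
  let F : ℤ → Frm K L m := fun s => ∑ r ∈ R.filter (fun r => ∑ i, r i = s), g r
  have hF : ∀ s, act K w (F s) = (-(s : K)) • F s := by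
    intro s
    have hsum : ∀ A : Finset (Fin m → ℤ), act K w (∑ r ∈ A, g r) = ∑ r ∈ A, act K w (g r) := by
      intro A
      induction A using Finset.induction_on with
      | empty =>
        simp only [Finset.sum_empty]
        ext x
        simp [act_apply]
      | insert a A ha ih => rw [Finset.sum_insert ha, Finset.sum_insert ha, act_add, ih]
    change act K w (∑ r ∈ _, g r) = _ • ∑ r ∈ _, g r
    rw [hsum, Finset.smul_sum]
    refine Finset.sum_congr rfl fun r hr => ?_
    rw [Finset.mem_filter] at hr
    rw [← hr.2]
    exact act_fdet _ r fun i => h.mem _ _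
  let A : Finset ℤ := insert (∑ i, d i) (R.image fun r => ∑ i, r i)
  have hsum : ∑ s ∈ A, F s ∈ V := by
    have h1 : ∑ s ∈ A, F s = fdet K n := by
      rw [fdet_expand h n]
      change ∑ s ∈ A, ∑ r ∈ R.filter (fun r => ∑ i, r i = s), g r = ∑ r ∈ R, g r
      apply Finset.sum_fiberwise_of_maps_to
      intro r hr
      exact Finset.mem_insert_of_mem (Finset.mem_image_of_mem _ hr)
    rw [h1]
    exact hn
  have key := eig_mem (K := K) (act K w) (act_add w) V hV A F hF (fun c x => act_smul w c x) hsum
    (∑ i, d i) (Finset.mem_insert_self _ _)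
  have hlead : F (∑ i, d i) = g d := by
    change ∑ r ∈ R.filter (fun r => ∑ i, r i = ∑ i, d i), g r = g d
    by_cases hdR : d ∈ R
    · rw [Finset.sum_eq_single d]
      · intro r hr hrd
        rw [Finset.mem_filter] at hr
        have : ∃ i, r i < d i := by
          by_contra hcon
          push Not at hcon
          apply hrd
          funext i
          have h1 := (Finset.sum_eq_sum_iff_of_le (fun i _ => hcon i)).1 hr.2.symm
          exact (h1 i (Finset.mem_univ i)).symm
        obtain ⟨i, hi⟩ := this
        exact fdet_zero _ i (hd i _ hi)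
      · intro h
        exfalso
        apply h
        rw [Finset.mem_filter]
        exact ⟨hdR, rfl⟩
    · have hg : g d = 0 := by
        have : ∃ i, d i ∉ S := by
          by_contra hcon
          push Not at hcon
          exact hdR (Fintype.mem_piFinset.2 hcon)
        obtain ⟨i, hi⟩ := this
        exact fdet_zero _ i (h.out _ hi _)
      rw [hg]
      refine Finset.sum_eq_zero fun r hr => ?_
      rw [Finset.mem_filter] at hr
      have : ∃ i, r i < d i := by
        by_contra hcon
        push Not at hcon
        apply hdR
        have h1 := (Finset.sum_eq_sum_iff_of_le (fun i _ => hcon i)).1 hr.2.symm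
        have : d = r := by
          funext i
          exact h1 i (Finset.mem_univ i)
        rw [this]
        exact hr.1
      obtain ⟨i, hi⟩ := this
      exact fdet_zero _ i (hd i _ hi)
  rw [hlead] at key
  exact key

end

end Pool.Agent.TH494.FLV
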