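import Pool.Agent.TH494.FL.V1

/-! The limit of a subalgebra of nilpotent elements: echelon bases. -/

set_option autoImplicit false

universe u v

namespace Pool.Agent.TH494.FLV

open Module Pool.Agent.TH28.FL

section

variable {K : Type u} {L : Type v} [Field K] [CharZero K] [LieRing L] [LieAlgebra K L]
  [FiniteDimensional K L]

variable {w : L} {pr : ℤ → L →ₗ[K] L} {S : Finset ℤ}

omit [CharZero K] [FiniteDimensional K L] in
theorem echelon (h : Prj w pr S) {m : ℕ} (n : Fin m → L) (hn : LinearIndependent K n)
    (V : Submodule K (Frm K L m)) (hV : fdet K n ∈ V) :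
    ∃ (n' : Fin m → L) (d : Fin m → ℤ), LinearIndependent K n' ∧
      Submodule.span K (Set.range n') = Submodule.span K (Set.range n) ∧ fdet K n' ∈ V ∧
      (∀ i, ∀ j < d i, pr j (n' i) = 0) ∧ LinearIndependent K (fun i => pr (d i) (n' i)) := by
  classical
  let P : ℤ → Prop := fun N => ∃ (n' : Fin m → L) (d : Fin m → ℤ), LinearIndependent K n' ∧
      Submodule.span K (Set.range n') = Submodule.span K (Set.range n) ∧ fdet K n' ∈ V ∧
      (∀ i, ∀ j < d i, pr j (n' i) = 0) ∧ ∑ i, d i = N
  obtain ⟨B, hB⟩ : ∃ B : ℤ, ∀ j ∈ S, |j| ≤ B := by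
    refine ⟨∑ j ∈ S, |j|, fun j hj => ?_⟩
    exact Finset.single_le_sum (f := fun j : ℤ => |j|) (fun i _ => abs_nonneg i) hj
  have hbdd : ∃ b : ℤ, ∀ z : ℤ, P z → z ≤ b := by
    refine ⟨∑ _i : Fin m, B, ?_⟩
    rintro z ⟨n', d, hli, _, _, hd, rfl⟩
    refine Finset.sum_le_sum fun i _ => ?_
    by_contra hcon
    push Not at hcon
    apply hli.ne_zero i
    apply eq_zero_of_pr h
    intro j hj
    exact hd i j (by have := hB j hj; have := le_abs_self j; omega)
  have hinh : ∃ z : ℤ, P z := by
    refine ⟨_, n, fun _ => -B, hn, rfl, hV, ?_, rfl⟩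
    intro i j hj
    apply h.out
    intro hjS
    have h1 := hB j hjS
    have h2 := neg_abs_le j
    have h3 : j < -B := hj
    omega
  obtain ⟨N, ⟨n', d, hli, hspan, hV', hd, hN⟩, hmax⟩ := Int.exists_greatest_of_bdd hbdd hinh
  refine ⟨n', d, hli, hspan, hV', hd, ?_⟩
  by_contra hdep
  obtain ⟨g, hg, i0, hi0⟩ := Fintype.not_linearIndependent_iff.1 hdep
  let c : Fin m → K := fun i => if d i = d i0 then g i else 0
  have hc0 : c i0 = g i0 := if_pos rfl
  have hc : ∑ i, c i • pr (d i0) (n' i) = 0 := by
    have h1 : pr (d i0) (∑ i, g i • pr (d i) (n' i)) = 0 := by rw [hg, map_zero]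
    rw [map_sum] at h1
    rw [← h1]
    refine Finset.sum_congr rfl fun i _ => ?_
    rw [map_smul, pr_pr h]
    by_cases hdi : d i = d i0
    · simp only [c, if_pos hdi, hdi, if_true]
    · simp only [c, if_neg hdi, zero_smul, smul_zero]
  let y : L := ∑ i, c i • n' i
  let n'' : Fin m → L := Function.update n' i0 y
  have hy : y ∈ Submodule.span K (Set.range n') :=
    Submodule.sum_mem _ fun i _ => Submodule.smul_mem _ _ (Submodule.subset_span ⟨i, rfl⟩)
  have hspan'' : Submodule.span K (Set.range n'') = Submodule.span K (Set.range n') := by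
    apply le_antisymm
    · rw [Submodule.span_le]
      rintro _ ⟨i, rfl⟩
      by_cases hi : i = i0
      · subst hi
        simpa [n''] using hy
      · simp only [n'', Function.update_of_ne hi]
        exact Submodule.subset_span ⟨i, rfl⟩
    · have hne : ∀ i, i ≠ i0 → n' i ∈ Submodule.span K (Set.range n'') := by
        intro i hi
        have : n'' i = n' i := Function.update_of_ne hi _ _
        rw [← this]
        exact Submodule.subset_span ⟨i, rfl⟩
      rw [Submodule.span_le]
      rintro _ ⟨i, rfl⟩
      by_cases hi : i = i0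
      · subst hi
        have h1 : c i • n' i = y - ∑ k ∈ Finset.univ.erase i, c k • n' k := by
          rw [eq_sub_iff_add_eq]
          exact Finset.add_sum_erase Finset.univ (fun k => c k • n' k) (Finset.mem_univ i)
        have h2 : c i • n' i ∈ Submodule.span K (Set.range n'') := by
          rw [h1]
          refine Submodule.sub_mem _ ?_ (Submodule.sum_mem _ fun k hk => ?_)
          · have : n'' i = y := Function.update_self _ _ _
            rw [← this]
            exact Submodule.subset_span ⟨i, rfl⟩
          · exact Submodule.smul_mem _ _ (hne k (Finset.ne_of_mem_erase hk))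
        have h3 := Submodule.smul_mem _ (c i)⁻¹ h2
        rw [smul_smul, inv_mul_cancel₀ (by rw [hc0]; exact hi0), one_smul] at h3
        exact h3
      · exact hne i hi
  have hli'' : LinearIndependent K n'' := by
    rw [linearIndependent_iff_card_eq_finrank_span]
    rw [linearIndependent_iff_card_eq_finrank_span] at hli
    rw [hli]
    change _ = finrank K (Submodule.span K (Set.range n''))
    rw [hspan'']
    rfl
  have hP : P (∑ i, Function.update d i0 (d i0 + 1) i) := by
    refine ⟨n'', Function.update d i0 (d i0 + 1), hli'', by rw [hspan'', hspan], ?_, ?_, rfl⟩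
    · have := fdet_update n' i0 c
      change fdet K (Function.update n' i0 (∑ i, c i • n' i)) ∈ V
      rw [this]
      exact V.smul_mem _ hV'
    · intro i j hj
      by_cases hi : i = i0
      · subst hi
        rw [Function.update_self] at hj
        have : n'' i = y := Function.update_self _ _ _
        rw [this, map_sum]
        rcases (Int.lt_add_one_iff.1 hj).lt_or_eq with hj' | hj'
        · refine Finset.sum_eq_zero fun k _ => ?_
          rw [map_smul]
          by_cases hk : d k = d i
          · rw [hd k j (by omega), smul_zero]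
          · simp only [c, if_neg hk, zero_smul]
        · subst hj'
          simp only [map_smul]
          exact hc
      · rw [Function.update_of_ne hi] at hj
        have : n'' i = n' i := Function.update_of_ne hi _ _
        rw [this]
        exact hd i j hj
  have h1 := hmax _ hP
  rw [Finset.sum_update_of_mem (Finset.mem_univ i0), ← hN,
    ← Finset.add_sum_erase Finset.univ d (Finset.mem_univ i0), Finset.erase_eq] at h1
  omega

omit [CharZero K] [FiniteDimensional K L] in
/-- Components of elements of the span. -/
theorem lead_mem {m : ℕ} (n : Fin m → L) (d : Fin m → ℤ)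
    (hd : ∀ i, ∀ j < d i, pr j (n i) = 0) (hli : LinearIndependent K (fun i => pr (d i) (n i)))
    (c : Fin m → K) (s : ℤ) (hx : ∀ j < s, pr j (∑ i, c i • n i) = 0) :
    pr s (∑ i, c i • n i) ∈ Submodule.span K (Set.range fun i => pr (d i) (n i)) := by
  classical
  -- the coefficients with `d i < s` vanish
  have hc : ∀ i, d i < s → c i = 0 := by
    by_contra hcon
    push Not at hcon
    obtain ⟨i1, hi1, hci1⟩ := hcon
    obtain ⟨i, hi, hmin⟩ := Finset.exists_min_image
      (Finset.univ.filter fun i => c i ≠ 0) d ⟨i1, by simpa using hci1⟩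
    have hci : c i ≠ 0 := by simpa using hi
    have hmin' : ∀ k, c k ≠ 0 → d i ≤ d k := fun k hk => hmin k (by simpa using hk)
    have h1 : pr (d i) (∑ k, c k • n k) = 0 := hx _ (lt_of_le_of_lt (hmin' i1 hci1) hi1)
    rw [map_sum] at h1
    have h2 : ∑ k, (if d k = d i then c k else 0) • pr (d k) (n k) = 0 := by
      rw [← h1]
      refine Finset.sum_congr rfl fun k _ => ?_
      rw [map_smul]
      by_cases hk : d k = d i
      · rw [if_pos hk, hk]
      · rw [if_neg hk, zero_smul]
        by_cases hck : c k = 0
        · rw [hck, zero_smul]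
        · rw [hd k (d i) (lt_of_le_of_ne (hmin' k hck) (Ne.symm hk)), smul_zero]
    have h3 := (Fintype.linearIndependent_iff.1 hli) _ h2 i
    rw [if_pos rfl] at h3
    exact hci h3
  rw [map_sum]
  refine Submodule.sum_mem _ fun k _ => ?_
  rw [map_smul]
  rcases lt_trichotomy (d k) s with hk | hk | hk
  · rw [hc k hk, zero_smul]
    exact Submodule.zero_mem _
  · subst hk
    exact Submodule.smul_mem _ _ (Submodule.subset_span ⟨k, rfl⟩)
  · rw [hd k s hk, smul_zero]
    exact Submodule.zero_mem _

end

/-- The limit of a subalgebra of nilpotent elements. -/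
theorem v1 : S_V1.{u, v} := by
  intro K _ _ L _ _ _ _ w M hD m n hn hbr hnil V hV hnV
  obtain ⟨pr, S, p1, p2, p3, p4, p5⟩ := exists_pr K w hD.top
  have h : Prj w pr S := ⟨p1, p2, p3, p4, p5⟩
  obtain ⟨n', d, hli, hspan, hV', hd, hli'⟩ := echelon h n hn V hnV
  rw [← hspan] at hbr hnil
  have hlead := fdet_lead_mem h n' d hd V hV hV'
  -- elements of the span as sums
  have hex : ∀ x ∈ Submodule.span K (Set.range n'), ∃ c : Fin m → K, x = ∑ i, c i • n' i := by
    intro x hx
    obtain ⟨c, hc⟩ := (Submodule.mem_span_range_iff_exists_fun K).1 hx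
    exact ⟨c, hc.symm⟩
  have hmem : ∀ x ∈ Submodule.span K (Set.range n'), ∀ s, (∀ j < s, pr j x = 0) →
      pr s x ∈ Submodule.span K (Set.range fun i => pr (d i) (n' i)) := by
    intro x hx s hs
    obtain ⟨c, rfl⟩ := hex x hx
    exact lead_mem n' d hd hli' c s hs
  refine ⟨fun i => pr (d i) (n' i), hli', hlead, ?_, ?_, ?_⟩
  · -- closed under brackets
    intro x hx y hy
    induction hx using Submodule.span_induction with
    | zero => rw [zero_lie]; exact Submodule.zero_mem _
    | add x x' _ _ h1 h2 => rw [add_lie]; exact Submodule.add_mem _ h1 h2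
    | smul c x _ h1 => rw [smul_lie]; exact Submodule.smul_mem _ _ h1
    | mem x hx =>
      obtain ⟨i, rfl⟩ := hx
      induction hy using Submodule.span_induction with
      | zero => rw [lie_zero]; exact Submodule.zero_mem _
      | add x x' _ _ h1 h2 => rw [lie_add]; exact Submodule.add_mem _ h1 h2
      | smul c x _ h1 => rw [lie_smul]; exact Submodule.smul_mem _ _ h1
      | mem y hy =>
        obtain ⟨j, rfl⟩ := hy
        change ⁅pr (d i) (n' i), pr (d j) (n' j)⁆ ∈ _
        rw [← pr_lie_lead h (hd i) (hd j)]
        apply hmem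
        · exact hbr _ (Submodule.subset_span ⟨i, rfl⟩) _ (Submodule.subset_span ⟨j, rfl⟩)
        · exact fun s hs => pr_lie_low h (hd i) (hd j) s hs
  · -- graded
    rw [Submodule.span_le]
    rintro _ ⟨i, rfl⟩
    exact (le_iSup (fun j : ℤ => Submodule.span K (Set.range fun i => pr (d i) (n' i)) ⊓
      dg K w j) (d i)) ⟨Submodule.subset_span ⟨i, rfl⟩, h.mem _ _⟩
  · -- trivial intersection with the part of degree zero
    rw [eq_bot_iff]
    rintro a ⟨ha, ha0⟩
    obtain ⟨c, hc⟩ := (Submodule.mem_span_range_iff_exists_fun K).1 ha
    let c' : Fin m → K := fun i => if d i = 0 then c i else 0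
    let x : L := ∑ i, c' i • n' i
    have hx : x ∈ Submodule.span K (Set.range n') :=
      Submodule.sum_mem _ fun i _ => Submodule.smul_mem _ _ (Submodule.subset_span ⟨i, rfl⟩)
    have hxlow : ∀ j < 0, pr j x = 0 := by
      intro j hj
      rw [map_sum]
      refine Finset.sum_eq_zero fun i _ => ?_
      rw [map_smul]
      by_cases hdi : d i = 0
      · rw [hd i j (by omega), smul_zero]
      · simp only [c', if_neg hdi, zero_smul]
    have hx0 : pr 0 x = a := by
      have h1 : pr 0 a = a := h.same 0 a ha0
      rw [← h1, ← hc, map_sum, map_sum]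
      refine Finset.sum_congr rfl fun i _ => ?_
      rw [map_smul, map_smul, pr_pr h]
      by_cases hdi : d i = 0
      · simp only [c', if_pos hdi, hdi, if_true]
      · simp only [c', if_neg hdi, zero_smul, smul_zero]
    obtain ⟨N, hN⟩ := hnil x hx
    -- `ad a` vanishes
    have hada : ∀ v : L, ⁅a, v⁆ = 0 := by
      intro v
      have hv : v ∈ ⨆ j : ℤ, dg K w j := by rw [hD.top]; trivial
      induction hv using Submodule.iSup_induction' with
      | zero => rw [lie_zero]
      | add x y _ _ h1 h2 => rw [lie_add, h1, h2, add_zero]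
      | mem j v hv =>
        by_cases hj : j = 0
        · subst hj
          exact hD.comm a ha0 v hv
        · by_cases hv0 : v = 0
          · rw [hv0, lie_zero]
          · have hav : ⁅a, v⁆ ∈ dg K w j := by
              have := dg_lie ha0 hv
              rwa [zero_add] at this
            obtain ⟨lam, hlam⟩ : ∃ lam : K, ⁅a, v⁆ = lam • v := by
              have h1 := finrank_le_one_iff.1 (hD.one j hj)
              obtain ⟨u, hu⟩ := h1
              obtain ⟨c1, hc1⟩ := hu ⟨v, hv⟩
              obtain ⟨c2, hc2⟩ := hu ⟨⁅a, v⁆, hav⟩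
              have hc1' : c1 • (u : L) = v := congrArg Subtype.val hc1
              have hc2' : c2 • (u : L) = ⁅a, v⁆ := congrArg Subtype.val hc2
              have hc10 : c1 ≠ 0 := by
                intro h0
                rw [h0, zero_smul] at hc1'
                exact hv0 hc1'.symm
              refine ⟨c2 * c1⁻¹, ?_⟩
              rw [← hc2', ← hc1', smul_smul, mul_assoc, inv_mul_cancel₀ hc10, mul_one]
            have hpow : ∀ k : ℕ, (∀ i < j, pr i (((LieAlgebra.ad K L x) ^ k) v) = 0) ∧
                pr j (((LieAlgebra.ad K L x) ^ k) v) = lam ^ k • v := by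
              intro k
              induction k with
              | zero =>
                refine ⟨fun i hi => ?_, ?_⟩
                · rw [pow_zero, Module.End.one_apply]
                  exact h.ne j i v hv (by omega)
                · rw [pow_zero, Module.End.one_apply, pow_zero, one_smul]
                  exact h.same j v hv
              | succ k ih =>
                rw [pow_succ', Module.End.mul_apply, LieAlgebra.ad_apply]
                refine ⟨fun i hi => ?_, ?_⟩
                · exact pr_lie_low h hxlow ih.1 i (by omega)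
                · have := pr_lie_lead h hxlow ih.1
                  rw [zero_add] at this
                  rw [this, hx0, ih.2, lie_smul, hlam, smul_smul, pow_succ]
            have h2 := (hpow N).2
            rw [hN, LinearMap.zero_apply, map_zero] at h2
            have h3 : lam ^ N = 0 := by
              rcases smul_eq_zero.1 h2.symm with h4 | h4
              · exact h4
              · exact absurd h4 hv0
            have h4 : lam = 0 := IsNilpotent.eq_zero ⟨N, h3⟩
            rw [hlam, h4, zero_smul]
    have hcen : a ∈ LieAlgebra.center K L := by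
      rw [LieModule.mem_maxTrivSubmodule]
      intro v
      rw [← lie_skew, hada v, neg_zero]
    rw [LieAlgebra.center_eq_bot] at hcen
    simpa using hcen

end Pool.Agent.TH494.FLV
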